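import Pool.Agent.Helper7.KT.St

set_option autoImplicit false

/-!
Project KT, module EXK: the generalized Turan number.
-/

namespace Pool.Agent.Helper37.KT

open Finset SimpleGraph Filter Topology
open EX Pool.Agent.Helper7.KT

open scoped Classical

noncomputable section

/-- binomial coefficients tend to infinity -/
theorem choose_large (hPSA : StPSA) (k : ℕ) (hk : 1 ≤ k) (M : ℝ) :
    ∀ᶠ n : ℕ in atTop, M ≤ (n.choose k : ℝ) := by
  obtain ⟨C, hC, h⟩ := hPSA k 1 one_pos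
  have hf : (0 : ℝ) < (k.factorial : ℝ) := by exact_mod_cast k.factorial_pos
  have h1 : ∀ᶠ n : ℕ in atTop, 2 * (k.factorial : ℝ) * |M| + C ≤ (n : ℝ) :=
    (tendsto_natCast_atTop_atTop (R := ℝ)).eventually_ge_atTop _
  filter_upwards [h1, eventually_ge_atTop 1] with n hn hn1
  have h2 := h n
  have h3 : (n : ℝ) ≤ (n : ℝ) ^ k := by
    have : (1 : ℝ) ≤ n := by exact_mod_cast hn1
    exact le_self_pow₀ this (by omega)
  have h4 : 2 * (k.factorial : ℝ) * |M| ≤ 2 * (k.factorial : ℝ) * (n.choose k : ℝ) := by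
    nlinarith
  have h5 : |M| ≤ (n.choose k : ℝ) := le_of_mul_le_mul_left h4 (by positivity)
  exact (le_abs_self M).trans h5

/-- **EXK**. -/
theorem hEXK (hKFG : StKFG) (hPSA : StPSA) (hCLQ : StCLQ) : StEXK := by
  intro r t hr ht U _ G hG ε hε
  have hs : r ≤ r.choose 2 := by
    rw [Nat.choose_two_right]
    have h1 : r * 2 ≤ r * (r - 1) := Nat.mul_le_mul_left r (by omega)
    omega
  have hs0 : (0 : ℝ) < (r.choose 2 : ℝ) := by
    have : 0 < r.choose 2 := by omega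
    exact_mod_cast this
  have hr0 : (0 : ℝ) < (r : ℝ) := by
    have : 0 < r := by omega
    exact_mod_cast this
  have hf : (0 : ℝ) < ((r - 1).factorial : ℝ) := by exact_mod_cast (r - 1).factorial_pos
  have hfr : ((r.factorial : ℕ) : ℝ) = r * ((r - 1).factorial : ℝ) := by
    have : r.factorial = r * (r - 1).factorial := (Nat.mul_factorial_pred (by omega)).symm
    exact_mod_cast this
  have hT : (0 : ℝ) ≤ (t : ℝ) - 1 := by
    have : (1 : ℝ) ≤ t := by exact_mod_cast ht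
    linarith
  set A : ℝ := ((t : ℝ) - 1) / r with hA
  have hA0 : 0 ≤ A := div_nonneg hT hr0.le
  set ε₁ : ℝ := ε / (4 * ((r - 1).factorial : ℝ)) with he1
  have he1p : 0 < ε₁ := by positivity
  set ε₂ : ℝ := (ε / 4) / (A + ε / 4) with he2
  have he2p : 0 < ε₂ := by positivity
  obtain ⟨C, hC, h1⟩ := hCLQ t ht r (by omega) (r.choose 2) hs ε₁ he1p
  obtain ⟨C₂, hC₂, h2⟩ := hPSA (r - 1) ε₂ he2p
  set C₃ : ℝ := (((t : ℝ) - 1) / r.factorial + ε₁) * C₂ + C with hC3
  have hC3p : 0 ≤ C₃ := by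
    have : (0 : ℝ) < (r.factorial : ℝ) := by exact_mod_cast r.factorial_pos
    positivity
  filter_upwards [choose_large hPSA (r - 1) (by omega) (C₃ / (ε / 4))] with n hn
  have hn' : C₃ ≤ (ε / 4) * (n.choose (r - 1) : ℝ) := by
    rw [div_le_iff₀ (by positivity)] at hn
    linarith
  have h3 : ∀ K : SimpleGraph (Fin n), G.Free K → ((kc K r univ : ℕ) : ℝ) ≤
      (((t : ℝ) - 1) / r.factorial + ε₁) * (n : ℝ) ^ (r - 1) + C := by
    intro K hK
    have h4 := h1 (Fin n) K univ (hKFG U G (r.choose 2) t hG (Fin n) K hK univ)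
    rw [div_self hs0.ne', Real.rpow_one, card_univ, Fintype.card_fin, Nat.cast_sub ht,
      Nat.cast_one] at h4
    have h5 : (n : ℝ) ^ ((r : ℝ) - 1) = (n : ℝ) ^ (r - 1) := by
      rw [← Real.rpow_natCast, Nat.cast_sub (by omega), Nat.cast_one]
    rwa [h5] at h4
  have hB : 0 ≤ (((t : ℝ) - 1) / r.factorial + ε₁) * (n : ℝ) ^ (r - 1) + C := by
    have : (0 : ℝ) < (r.factorial : ℝ) := by exact_mod_cast r.factorial_pos
    positivity
  refine (exK_le_of_kc n r G _ hB h3).trans ?_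
  have h6 : (0 : ℝ) ≤ ((t : ℝ) - 1) / r.factorial + ε₁ := by
    have : (0 : ℝ) < (r.factorial : ℝ) := by exact_mod_cast r.factorial_pos
    positivity
  have h7 : (((t : ℝ) - 1) / r.factorial + ε₁) * (n : ℝ) ^ (r - 1) + C ≤
      (((t : ℝ) - 1) / r.factorial + ε₁) * ((1 + ε₂) * (((r - 1).factorial : ℝ) *
        (n.choose (r - 1) : ℝ))) + C₃ := by
    have := mul_le_mul_of_nonneg_left (h2 n) h6
    rw [hC3]
    linarith
  have h8 : (((t : ℝ) - 1) / r.factorial + ε₁) * ((r - 1).factorial : ℝ) = A + ε / 4 := by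
    rw [hfr, hA, he1]
    field_simp
  have h9 : (A + ε / 4) * (1 + ε₂) = A + ε / 4 + ε / 4 := by
    rw [he2]
    field_simp
  have h10 : (((t : ℝ) - 1) / r.factorial + ε₁) * ((1 + ε₂) * (((r - 1).factorial : ℝ) *
        (n.choose (r - 1) : ℝ))) = (A + ε / 4 + ε / 4) * (n.choose (r - 1) : ℝ) := by
    rw [← h9, ← h8]
    ring
  rw [h10] at h7
  have h11 : (0 : ℝ) ≤ (n.choose (r - 1) : ℝ) := Nat.cast_nonneg _
  have h12 : 0 ≤ ε / 4 * (n.choose (r - 1) : ℝ) := by positivity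
  calc (((t : ℝ) - 1) / r.factorial + ε₁) * (n : ℝ) ^ (r - 1) + C
      ≤ (A + ε / 4 + ε / 4) * (n.choose (r - 1) : ℝ) + C₃ := h7
    _ ≤ (A + ε / 4 + ε / 4) * (n.choose (r - 1) : ℝ) + (ε / 4) * (n.choose (r - 1) : ℝ) := by
        linarith
    _ ≤ (A + ε) * (n.choose (r - 1) : ℝ) := by nlinarith

end

end Pool.Agent.Helper37.KT
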